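import Pool.Agent.AT12.Stmts3

/-!
# Squad AT12: GRM, the Gram matrix
-/

set_option autoImplicit false

open scoped BigOperators

noncomputable section

namespace Pool.Agent.PP.T12.H65

open Pool.Agent.Helper51_AWC Pool.Agent.Helper79_WRA Pool.Agent.PP Pool.Agent.PP.KF
open Pool.Agent.PP.K9 Pool.Agent.PP.K9.H97 Pool.Agent.PP.H75 Pool.Agent.PP.T3 Pool.Agent.PP.T2
open Pool.Agent.PP.T8 Pool.Agent.PP.T12

attribute [local instance] Ideal.Quotient.field

theorem grm (hO : OavStmt) (hC : CrgStmt) (hD : T8.DorStmt) (hP : T8.DpwStmt) : GrmStmt := by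
  intro ℓ _ M _ hM G H _ _ _ _ N e V γ b d c ε y w β π m K g θ hs j j' hj hjj
  have hF : GoodF ℓ (FF M) := H50.fld ℓ Fact.out M hM
  have hℓ : ℓ ≠ 2 := hs.odd
  have hj' : ¬ ℓ ∣ j' := fun h => hj ((Nat.modEq_zero_iff_dvd.1 (hjj.trans
    (Nat.modEq_zero_iff_dvd.2 h))))
  have hcs := hs.cs
  have hsy := hs.sy
  have hdat := hs.dat
  obtain ⟨c1, c2, -⟩ := hC ℓ (FF M) hF hℓ G e V γ hdat.ld y w m hcs
  have hze : ∀ s, g s ∈ ZE M (push π (fun t : Cu y => β t)) := hsy.cd.ze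
  have hrc : ∀ s, Rc ℓ (g s) := hsy.cd.rc
  have hpow : j ≡ j' [MOD ℓ ^ 2] → y ^ j = y ^ j' := by
    intro h
    rw [pow_eq_pow_iff_modEq, hcs.oy]
    exact h
  refine ⟨?_, ?_, ?_⟩
  · intro s s'
    obtain ⟨-, -, o3, o4⟩ := hO ℓ M hM G H 2 e V γ y β π m K g hsy j hj (g s) (hze s) (hrc s)
    constructor
    · intro h
      rw [← hpow h, o4 (g s') (hze s') (hrc s'), hsy.cd.gr s' s]
      simp only [eq_comm (a := s')]
    · intro h
      refine o3 j' hj' ?_ (g s') (hze s') (hrc s')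
      intro t ht h1
      refine h ?_
      have h2 := c2 j' j 0 0 hj' hjj.symm t ht (by simpa using h1)
      exact h2.2.1.symm
  · intro s k hk
    obtain ⟨-, o2, -, -⟩ := hO ℓ M hM G H 2 e V γ y β π m K g hsy j hj (g s) (hze s) (hrc s)
    have h1 := o2 b d c ε hdat (y ^ j' * w ^ (ℓ * k)) (c1 j' k hj' hk) (by
      intro t ht h2
      have h3 := c2 j' j k 0 hj' hjj.symm t ht (by simpa using h2)
      exact hk (h3.2.2.2 (dvd_zero ℓ)))
    have h2 : ∀ χ : G → ℂ, Av ℓ π (y ^ j) (g s) χ * starRingEnd ℂ (vk M ℓ b d ε y w j' k χ) =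
        (ε (y ^ j' * w ^ (ℓ * k)) : ℂ) * (Av ℓ π (y ^ j) (g s) χ *
          starRingEnd ℂ (vv M b d (y ^ j' * w ^ (ℓ * k)) χ)) := by
      intro χ
      unfold vk
      rw [map_mul, map_intCast]
      ring
    simp only [h2]
    rw [← mul_finsum_mem, h1, mul_zero]
  · intro k k' hk hk'
    have hr := c1 j k hj hk
    have hr' := c1 j' k' hj' hk'
    obtain ⟨d1, d2⟩ := hD ℓ M hM G e V γ b d c ε hdat _ _ hr hr'
    have h2 : ∀ χ : G → ℂ, vk M ℓ b d ε y w j k χ * starRingEnd ℂ (vk M ℓ b d ε y w j' k' χ) =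
        ((ε (y ^ j * w ^ (ℓ * k)) : ℂ) * (ε (y ^ j' * w ^ (ℓ * k')) : ℂ)) *
          (vv M b d (y ^ j * w ^ (ℓ * k)) χ *
            starRingEnd ℂ (vv M b d (y ^ j' * w ^ (ℓ * k')) χ)) := by
      intro χ
      unfold vk
      rw [map_mul, map_intCast]
      ring
    constructor
    · rintro ⟨hmod, t, ht, h3⟩
      have h4 : t * (y ^ j * w ^ (ℓ * k)) * t⁻¹ = y ^ j' * w ^ (ℓ * k') := by
        rw [h3, hpow hmod]
      simp only [h2]
      rw [← mul_finsum_mem, d1 ⟨t⁻¹, inv_mem ht, by rw [← h4]; group⟩]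
      obtain ⟨p1, -, -⟩ := hP ℓ M hM hℓ G e V γ b d c ε hdat
      have h5 := (p1 t ht _ hr).2.1
      rw [h4] at h5
      rw [h5, hcs.card]
      have h6 : (ε (y ^ j * w ^ (ℓ * k)) : ℂ) * (ε (y ^ j * w ^ (ℓ * k)) : ℂ) = 1 := by
        rcases hdat.sg _ hr with h7 | h7
        · rw [h7]; norm_num
        · rw [h7]; norm_num
      rw [h6, one_mul]
      push_cast
      rfl
    · intro hn
      simp only [h2]
      rw [← mul_finsum_mem, d2, mul_zero]
      rintro ⟨t, ht, h3⟩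
      obtain ⟨-, h5, -⟩ := c2 j' j k' k hj' hjj.symm t ht h3
      refine hn ⟨h5.symm, t⁻¹, inv_mem ht, ?_⟩
      rw [← h3, hpow h5.symm]
      group

end Pool.Agent.PP.T12.H65
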